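import Pool.Agent.W5h98.Frog.StepG

/-!
# The frog model with infinite lifespan on amenable vertex-transitive graphs

`G` is an infinite, connected, locally finite, vertex-transitive, amenable graph.  At every vertex
there is a Poisson(`lam`) number of particles; every particle has its own rate-1 continuous-time
simple random walk.  Given that there is a particle at `o`, the cluster of `o` is almost surely the
whole vertex set.
-/

set_option autoImplicit false
set_option linter.unusedSectionVars false

namespace Pool.Agent.Results.MP_465498_pr.FullCoverage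
open MeasureTheory ProbabilityTheory Set Filter Relation
open scoped ENNReal NNReal
open Pool.Agent.W5h98.Frog

variable {V : Type*}

/-- The data of one particle: `p.1 n y` is the vertex to which it jumps at its `n`-th jump if it is
at `y` before that jump, and `p.2 n` is the time it waits before its `n`-th jump. -/
abbrev Particle (V : Type*) := (ℕ → V → V) × (ℕ → ℝ)

/-- A configuration: for every vertex the number of its particles, and the data of the particles
number `0, 1, 2, …` of this vertex (only those with a number below the number of particles count). -/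
abbrev Config (V : Type*) := V → ℕ × (ℕ → Particle V)

/-- The vertex of a particle started at `x` after `n` jumps. -/
def jumpChain (s : ℕ → V → V) (x : V) : ℕ → V
  | 0 => x
  | n + 1 => s n (jumpChain s x n)

/-- The number of jumps made up to the time `t`: the least `n` such that `t` lies before the end of
the `n`-th waiting time (counted from `0`). -/
noncomputable def jumps (e : ℕ → ℝ) (t : ℝ) : ℕ := sInf {n : ℕ | t < ∑ i ∈ Finset.range (n + 1), e i}

/-- The position at the real time `t` of the particle with data `p` started at `x`. -/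
noncomputable def position (p : Particle V) (x : V) (t : ℝ) : V := jumpChain p.1 x (jumps p.2 t)

/-- The directed edges: from `x` to `x` and from `x` to all vertices in the ranges of the walks of
the particles of `x`. -/
def Edge (ω : Config V) (x y : V) : Prop :=
  y = x ∨ ∃ k < (ω x).1, ∃ t : ℝ, 0 ≤ t ∧ position ((ω x).2 k) x t = y

/-- The cluster of `x`: all vertices reached from `x` by directed paths. -/
def cluster (ω : Config V) (x : V) : Set V := {y | ReflTransGen (Edge ω) x y}

/-- The law of the configuration: at different vertices independent; at each vertex a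
Poisson(`lam`) number of particles; all particles independent; all jumps independent, uniform on
the neighbours of the present vertex; all waiting times independent, exponential with rate `1`. -/
noncomputable def frogLaw [MeasurableSpace V] (G : SimpleGraph V) (lam : ℝ≥0) : Measure (Config V) :=
  Measure.infinitePi fun _ : V => (poissonMeasure lam).prod
    (Measure.infinitePi fun _ : ℕ =>
      (Measure.infinitePi fun _ : ℕ => Measure.infinitePi fun y : V => uniformOn (G.neighborSet y)).prod
        (Measure.infinitePi fun _ : ℕ => expMeasure 1))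

/-- The vertex boundary of `F`: the vertices outside `F` with a neighbour in `F`. -/
def bdry (G : SimpleGraph V) (F : Finset V) : Set V := {y | y ∉ F ∧ ∃ x ∈ F, G.Adj x y}

/-- Amenability: there are nonempty finite sets `F n` with `|∂ F n| / |F n| → 0`. -/
def Amenable (G : SimpleGraph V) : Prop :=
  ∃ F : ℕ → Finset V, (∀ n, (F n).Nonempty) ∧
    Tendsto (fun n => ((bdry G (F n)).ncard : ℝ) / ((F n).card : ℝ)) atTop (nhds 0)

theorem jumpChain_eq (s : ℕ → V → V) (x : V) : jumpChain s x = pos s x := by
  funext n
  induction n with
  | zero => rfl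
  | succ n ih => show s n (jumpChain s x n) = s n (pos s x n); rw [ih]

theorem jumps_eq {e : ℕ → ℝ} (he : ∀ n, 0 < e n) (n : ℕ) : jumps e (∑ i ∈ Finset.range n, e i) = n := by
  apply IsLeast.csInf_eq
  constructor
  · show ∑ i ∈ Finset.range n, e i < ∑ i ∈ Finset.range (n + 1), e i
    rw [Finset.sum_range_succ]
    linarith [he n]
  · intro m hm
    by_contra hlt
    push Not at hlt
    have h1 : ∑ i ∈ Finset.range (m + 1), e i ≤ ∑ i ∈ Finset.range n, e i := by
      apply Finset.sum_le_sum_of_subset_of_nonneg
      · intro i hi
        rw [Finset.mem_range] at hi ⊢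
        omega
      · intro i _ _; exact (he i).le
    have h2 : ∑ i ∈ Finset.range n, e i < ∑ i ∈ Finset.range (m + 1), e i := hm
    linarith

/-- Forget the waiting times. -/
def forget (ω : Config V) : Cfg V := fun x => ((ω x).1, fun k => ((ω x).2 k).1)

theorem edge_of_rel [MeasurableSpace V] [DiscreteMeasurableSpace V] [Countable V] {ω : Config V} (he : ∀ x k n, 0 < ((ω x).2 k).2 n) {x y : V}
    (h : rel (Mb hitB (forget ω)) x y) : Edge ω x y := by
  unfold rel at h
  rw [Mb_true] at h
  obtain ⟨k, hk, n, hn⟩ := h
  right
  refine ⟨k, hk, ∑ i ∈ Finset.range n, ((ω x).2 k).2 i, Finset.sum_nonneg fun i _ => (he x k i).le, ?_⟩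
  unfold position
  rw [jumps_eq (he x k), jumpChain_eq]
  exact hn

theorem cluster_of_Es [MeasurableSpace V] [DiscreteMeasurableSpace V] [Countable V] {ω : Config V} (he : ∀ x k n, 0 < ((ω x).2 k).2 n) {o : V}
    (h : Mb hitB (forget ω) ∈ Es o) : cluster ω o = Set.univ := by
  apply Set.eq_univ_of_forall
  intro z
  exact rtg_mono (fun u v huv => edge_of_rel he huv) (h z)

section law
variable [MeasurableSpace V] (G : SimpleGraph V)

theorem exp_nonpos : expMeasure 1 {x : ℝ | x ≤ 0} = 0 := by
  have := isProbabilityMeasure_expMeasure (r := 1) one_pos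
  have h1 := cdf_expMeasure_eq (r := 1) one_pos 0
  rw [cdf_eq_real] at h1
  simp only [le_refl, if_true, mul_zero, neg_zero, Real.exp_zero, sub_self] at h1
  rw [measureReal_def, ENNReal.toReal_eq_zero_iff] at h1
  rcases h1 with h | h
  · exact h
  · exact absurd h (measure_ne_top _ _)

variable [DiscreteMeasurableSpace V] [Countable V] [∀ y, IsProbabilityMeasure (srw G y)]

/-- The law of one particle. -/
noncomputable def partLaw : Measure (Particle V) :=
  (insLaw (srw G)).prod (Measure.infinitePi fun _ : ℕ => expMeasure 1)

instance : IsProbabilityMeasure (partLaw G) := by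
  have : IsProbabilityMeasure (expMeasure 1) := isProbabilityMeasure_expMeasure one_pos
  unfold partLaw; infer_instance

theorem frogLaw_eq (lam : ℝ≥0) : frogLaw G lam = Measure.infinitePi fun _ : V =>
    (poissonMeasure lam).prod (Measure.infinitePi fun _ : ℕ => partLaw G) := rfl

instance (lam : ℝ≥0) : IsProbabilityMeasure (frogLaw G lam) := by
  rw [frogLaw_eq]; infer_instance

theorem measurable_forget : Measurable (forget (V := V)) := by
  unfold forget
  fun_prop

theorem map_forget (lam : ℝ≥0) : (frogLaw G lam).map forget = cfgLaw (srw G) lam := by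
  have hexp : IsProbabilityMeasure (expMeasure 1) := isProbabilityMeasure_expMeasure one_pos
  have hf : Measurable (fun a : ℕ × (ℕ → Particle V) => ((a.1, fun k => (a.2 k).1) : ℕ × (ℕ → ℕ → V → V))) := by
    fun_prop
  have h1 : ((poissonMeasure lam).prod (Measure.infinitePi fun _ : ℕ => partLaw G)).map
      (fun a : ℕ × (ℕ → Particle V) => ((a.1, fun k => (a.2 k).1) : ℕ × (ℕ → ℕ → V → V))) =
      oneLaw (srw G) lam := by
    have h2 : (Measure.infinitePi fun _ : ℕ => partLaw G).map (fun (s : ℕ → Particle V) (k : ℕ) => (s k).1) =
        Measure.infinitePi fun _ : ℕ => insLaw (srw G) := by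
      have h3 := Measure.infinitePi_map_pi (μ := fun _ : ℕ => partLaw G)
        (f := fun (_ : ℕ) (p : Particle V) => p.1) (fun _ => measurable_fst)
      rw [h3]
      congr 1
      funext _
      unfold partLaw
      rw [Measure.map_fst_prod, measure_univ, one_smul]
    have h4 : (fun a : ℕ × (ℕ → Particle V) => ((a.1, fun k => (a.2 k).1) : ℕ × (ℕ → ℕ → V → V))) =
        Prod.map id (fun (s : ℕ → Particle V) (k : ℕ) => (s k).1) := rfl
    rw [h4, ← Measure.map_prod_map _ _ measurable_id (by fun_prop), Measure.map_id, h2]
    rfl
  have h5 := Measure.infinitePi_map_pi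
    (μ := fun _ : V => (poissonMeasure lam).prod (Measure.infinitePi fun _ : ℕ => partLaw G))
    (f := fun (_ : V) (a : ℕ × (ℕ → Particle V)) => ((a.1, fun k => (a.2 k).1) : ℕ × (ℕ → ℕ → V → V)))
    (fun _ => hf)
  rw [frogLaw_eq]
  have h6 : (forget : Config V → Cfg V) = fun (ω : Config V) (x : V) =>
      (((ω x).1, fun k => ((ω x).2 k).1) : ℕ × (ℕ → ℕ → V → V)) := rfl
  rw [h6, h5, h1]
  rfl

theorem hold_pos (lam : ℝ≥0) (x : V) (k n : ℕ) :
    frogLaw G lam {ω | ((ω x).2 k).2 n ≤ 0} = 0 := by
  have hexp : IsProbabilityMeasure (expMeasure 1) := isProbabilityMeasure_expMeasure one_pos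
  have hm : MeasurableSet {t : ℝ | t ≤ 0} := measurableSet_Iic
  have hmap : (frogLaw G lam).map (fun ω : Config V => ((ω x).2 k).2 n) = expMeasure 1 := by
    have e1 : (frogLaw G lam).map (fun ω : Config V => ω x) =
        (poissonMeasure lam).prod (Measure.infinitePi fun _ : ℕ => partLaw G) := by
      rw [frogLaw_eq, Measure.infinitePi_map_eval]
    have e2 : ((poissonMeasure lam).prod (Measure.infinitePi fun _ : ℕ => partLaw G)).map Prod.snd =
        Measure.infinitePi fun _ : ℕ => partLaw G := by
      rw [Measure.map_snd_prod, measure_univ, one_smul]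
    have e3 : (Measure.infinitePi fun _ : ℕ => partLaw G).map (fun s => s k) = partLaw G := by
      rw [Measure.infinitePi_map_eval]
    have e4 : (partLaw G).map Prod.snd = Measure.infinitePi fun _ : ℕ => expMeasure 1 := by
      rw [partLaw, Measure.map_snd_prod, measure_univ, one_smul]
    have e5 : (Measure.infinitePi fun _ : ℕ => expMeasure 1).map (fun s => s n) = expMeasure 1 := by
      rw [Measure.infinitePi_map_eval]
    rw [← e5, ← e4, ← e3, ← e2, ← e1]
    rw [Measure.map_map (by fun_prop) (by fun_prop), Measure.map_map (by fun_prop) (by fun_prop),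
      Measure.map_map (by fun_prop) (by fun_prop), Measure.map_map (by fun_prop) (by fun_prop)]
    rfl
  have hmeas : Measurable (fun ω : Config V => ((ω x).2 k).2 n) := by fun_prop
  have := Measure.map_apply (μ := frogLaw G lam) hmeas hm
  rw [hmap, exp_nonpos] at this
  exact this.symm

end law

theorem folner_of_amenable [MeasurableSpace V] [DiscreteMeasurableSpace V] (G : SimpleGraph V) [G.LocallyFinite] (ht : ∀ x y, ∃ φ : G ≃g G, φ x = y)
    (ham : Amenable G) : Folner G := by
  classical
  intro ε hε
  obtain ⟨F, hF, hlim⟩ := ham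
  obtain ⟨o, _⟩ := hF 0
  set D := G.degree o with hD
  have hcard : ∀ n, (ibd G (F n)).card ≤ D * (bdry G (F n)).ncard := by
    intro n
    have hfin : (bdry G (F n)).Finite := by
      apply ((F n).finite_toSet.biUnion fun x _ => (G.neighborFinset x).finite_toSet).subset
      rintro y ⟨_, x, hx, hxy⟩
      simp only [Set.mem_iUnion]
      exact ⟨x, hx, by simpa using hxy⟩
    rw [Set.ncard_eq_toFinset_card _ hfin, mul_comm]
    have hsub : ibd G (F n) ⊆ hfin.toFinset.biUnion (fun y => G.neighborFinset y) := by
      intro x hx
      obtain ⟨hxF, y, hxy, hy⟩ := Finset.mem_filter.1 hx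
      rw [Finset.mem_biUnion]
      exact ⟨y, (Set.Finite.mem_toFinset _).2 ⟨hy, x, hxF, hxy⟩, (SimpleGraph.mem_neighborFinset G y x).2 hxy.symm⟩
    refine (Finset.card_le_card hsub).trans (Finset.card_biUnion_le_card_mul _ _ _ ?_)
    intro y _
    rw [SimpleGraph.card_neighborFinset_eq_degree, hD, degree_const G ht y o]
  have hev := hlim.eventually (gt_mem_nhds (show (0 : ℝ) < ε / (D + 1) by positivity))
  obtain ⟨n, hn⟩ := hev.exists
  refine ⟨F n, hF n, ?_⟩
  have hc : (0 : ℝ) < (F n).card := by exact_mod_cast Finset.card_pos.2 (hF n)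
  rw [div_lt_iff₀ hc] at hn
  have h1 : ((ibd G (F n)).card : ℝ) ≤ D * (bdry G (F n)).ncard := by exact_mod_cast hcard n
  calc ((ibd G (F n)).card : ℝ) ≤ D * (bdry G (F n)).ncard := h1
    _ ≤ D * (ε / (D + 1) * (F n).card) := by gcongr
    _ = (D / (D + 1)) * (ε * (F n).card) := by field_simp
    _ ≤ 1 * (ε * (F n).card) := by
        gcongr
        rw [div_le_one (by positivity)]
        linarith
    _ = ε * (F n).card := one_mul _

/-- **Full coverage.** On every infinite, connected, locally finite, vertex-transitive, amenable
graph and for every `lam > 0`, given that there is a particle at `o`, the cluster of `o` is the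
whole vertex set with probability one, and is not the whole vertex set with probability zero. -/
theorem result {V : Type*} [Infinite V] [MeasurableSpace V] [DiscreteMeasurableSpace V]
    (G : SimpleGraph V) [G.LocallyFinite] (hconn : G.Connected)
    (htrans : ∀ x y : V, ∃ φ : G ≃g G, φ x = y) (ham : Amenable G) (lam : ℝ≥0) (hlam : 0 < lam) (o : V) :
    (frogLaw G lam)[|{ω | 0 < (ω o).1}] {ω | cluster ω o = Set.univ} = 1 ∧
      (frogLaw G lam)[|{ω | 0 < (ω o).1}] {ω | cluster ω o ≠ Set.univ} = 0 := by
  have hcount : Countable V := countable_of_connected G hconn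
  have hprob : ∀ y, IsProbabilityMeasure (srw G y) := srw_prob G hconn
  have hfo := folner_of_amenable G htrans ham
  have hms : MeasurableSet {ω : Config V | 0 < (ω o).1} := by
    have h2 : Measurable (fun ω : Config V => (ω o).1) := by fun_prop
    have h3 : MeasurableSet {n : ℕ | 0 < n} := MeasurableSet.of_discrete
    exact h2 h3
  have hbad : frogLaw G lam ({ω | 0 < (ω o).1} \ {ω | cluster ω o = Set.univ}) = 0 := by
    have hsub : ({ω : Config V | 0 < (ω o).1} \ {ω | cluster ω o = Set.univ}) ⊆
        (forget ⁻¹' {ω : Cfg V | 0 < (ω o).1 ∧ Mb hitB ω ∉ Es o}) ∪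
        ⋃ x : V, ⋃ k : ℕ, ⋃ n : ℕ, {ω : Config V | ((ω x).2 k).2 n ≤ 0} := by
      rintro ω ⟨h1, h2⟩
      by_cases he : ∀ x k n, 0 < ((ω x).2 k).2 n
      · left
        exact ⟨h1, fun h3 => h2 (cluster_of_Es he h3)⟩
      · right
        push Not at he
        obtain ⟨x, k, n, h3⟩ := he
        simp only [Set.mem_iUnion]
        exact ⟨x, k, n, h3⟩
    have hmB : MeasurableSet {ω : Cfg V | 0 < (ω o).1 ∧ Mb hitB ω ∉ Es o} := by
      have h1 : MeasurableSet {ω : Cfg V | 0 < (ω o).1} := by
        have h2 : Measurable (fun ω : Cfg V => (ω o).1) := measurable_fst.comp (measurable_pi_apply o)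
        have h3 : MeasurableSet {n : ℕ | 0 < n} := MeasurableSet.of_discrete
        exact h2 h3
      exact h1.inter ((measurable_Mb meas_hitB) (measurableSet_Es o)).compl
    refine measure_mono_null hsub (measure_union_null ?_ ?_)
    · rw [← Measure.map_apply measurable_forget hmB, map_forget]
      exact cover_all G hconn htrans hfo lam hlam o
    · rw [measure_iUnion_null_iff]
      intro x
      rw [measure_iUnion_null_iff]
      intro k
      rw [measure_iUnion_null_iff]
      intro n
      exact hold_pos G lam x k n
  have hpos : frogLaw G lam {ω | 0 < (ω o).1} ≠ 0 := by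
    intro h0
    have h1 : (frogLaw G lam).map (fun ω : Config V => (ω o).1) = poissonMeasure lam := by
      have e1 : (frogLaw G lam).map (fun ω : Config V => ω o) =
          (poissonMeasure lam).prod (Measure.infinitePi fun _ : ℕ => partLaw G) := by
        rw [frogLaw_eq, Measure.infinitePi_map_eval]
      have e2 : ((poissonMeasure lam).prod (Measure.infinitePi fun _ : ℕ => partLaw G)).map Prod.fst =
          poissonMeasure lam := by
        rw [Measure.map_fst_prod, measure_univ, one_smul]
      rw [← e2, ← e1, Measure.map_map (by fun_prop) (by fun_prop)]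
      rfl
    have h2 : poissonMeasure lam {1} = 0 := by
      rw [← h1, Measure.map_apply (by fun_prop) (measurableSet_singleton 1)]
      refine measure_mono_null ?_ h0
      intro ω hω
      have : (ω o).1 = 1 := hω
      show 0 < (ω o).1
      rw [this]; exact one_pos
    rw [poissonMeasure_singleton, ENNReal.ofReal_eq_zero] at h2
    have h3 : (0 : ℝ) < lam := by exact_mod_cast hlam
    have h4 : 0 < Real.exp (-(lam : ℝ)) * (lam : ℝ) ^ 1 / (Nat.factorial 1 : ℝ) := by positivity
    linarith
  refine ⟨?_, ?_⟩
  swap
  · rw [ProbabilityTheory.cond_apply hms]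
    have h0 : ({ω : Config V | 0 < (ω o).1} ∩ {ω | cluster ω o ≠ Set.univ}) =
        ({ω | 0 < (ω o).1} \ {ω | cluster ω o = Set.univ}) := rfl
    rw [h0, hbad, mul_zero]
  rw [ProbabilityTheory.cond_apply hms]
  have heq : frogLaw G lam ({ω | 0 < (ω o).1} ∩ {ω | cluster ω o = Set.univ}) =
      frogLaw G lam {ω | 0 < (ω o).1} := by
    apply le_antisymm (measure_mono Set.inter_subset_left)
    calc frogLaw G lam {ω | 0 < (ω o).1}
        ≤ frogLaw G lam (({ω | 0 < (ω o).1} ∩ {ω | cluster ω o = Set.univ}) ∪
          ({ω | 0 < (ω o).1} \ {ω | cluster ω o = Set.univ})) := by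
          rw [Set.inter_union_sdiff]
      _ ≤ _ := (measure_union_le _ _).trans (by rw [hbad, add_zero])
  rw [heq]
  exact ENNReal.inv_mul_cancel hpos (measure_ne_top _ _)

end Pool.Agent.Results.MP_465498_pr.FullCoverage
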